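import Pool.Agent.K7.H74.AG.Stm
import Pool.Agent.K7.H36.AF.PLE

set_option autoImplicit false

open MeasureTheory Finset

namespace Pool.Agent.K7.H12.AG

open Pool.Agent.K7.H74.AG
open Pool.Agent.K7.H74.AF (lo blk Box mx e)

theorem meas_pairs (k J : ℕ) {B : Set ℝ} (hB : MeasurableSet B) :
    Measurable (fun β : ℝ => pairs k J B β) := by
  unfold pairs
  refine Finset.measurable_sum _ fun x _ => Finset.measurable_sum _ fun y _ => ?_
  have hs : MeasurableSet
      {p : ℝ × ℝ | p.2 - p.1 * (x : ℝ) ^ k ∈ B ∧ p.2 - p.1 * (y : ℝ) ^ k ∈ B} := by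
    have h1 : Measurable fun p : ℝ × ℝ => p.2 - p.1 * (x : ℝ) ^ k := by fun_prop
    have h2 : Measurable fun p : ℝ × ℝ => p.2 - p.1 * (y : ℝ) ^ k := by fun_prop
    exact (h1 hB).inter (h2 hB)
  exact measurable_measure_prodMk_left hs

theorem pairs_zero (k J : ℕ) {B : Set ℝ} (h : volume B = 0) (β : ℝ) : pairs k J B β = 0 := by
  unfold pairs
  refine Finset.sum_eq_zero fun x _ => Finset.sum_eq_zero fun y _ => ?_
  refine measure_mono_null (t := (fun τ => τ + -(β * (x : ℝ) ^ k)) ⁻¹' B) (fun τ hτ => ?_) ?_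
  · have := hτ.1
    rw [sub_eq_add_neg] at this
    exact this
  · rw [measure_preimage_add_right]
    exact h

theorem pae (hP : StPair) : StPae := by
  intro k m hk hm ι _ J B ω hB hfin hω hsum
  obtain ⟨C₀, hC₀, hpair⟩ := hP k m hk hm
  -- the normalising factors
  set c : ι → ℝ := fun n => ω n * ((3 : ℝ) ^ J n) ^ 2 / ((3 : ℝ) ^ J n) ^ k with hc
  have hcpos : ∀ n, 0 < c n := fun n => by
    have := hω n
    simp only [hc]
    positivity
  set D : ι → ENNReal := fun n => ENNReal.ofReal (c n) * volume (B n) ^ 2 with hD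
  have hDtop : ∀ n, D n ≠ ⊤ := fun n =>
    ENNReal.mul_ne_top ENNReal.ofReal_ne_top (ENNReal.pow_ne_top (hfin n))
  set g : ι → ℝ → ENNReal := fun n β => pairs k (J n) (B n) β / D n with hg
  have hgm : ∀ n, Measurable (g n) := fun n => (meas_pairs k (J n) (hB n)).div_const _
  have hint : ∀ n, ∫⁻ β, g n β ∂(seg m) ≤ ENNReal.ofReal (C₀ * ((1 + (J n : ℝ)) / ω n)) := by
    intro n
    by_cases h0 : volume (B n) = 0
    · have : ∀ β, g n β = 0 := fun β => by
        simp only [hg]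
        rw [pairs_zero k (J n) h0 β, ENNReal.zero_div]
      simp [this]
    · have hD0 : D n ≠ 0 := by
        simp only [hD]
        refine mul_ne_zero ?_ (pow_ne_zero _ h0)
        rw [Ne, ENNReal.ofReal_eq_zero, not_le]
        exact hcpos n
      have h1 : ∫⁻ β, g n β ∂(seg m) = (∫⁻ β, pairs k (J n) (B n) β ∂(seg m)) / D n := by
        simp only [hg, div_eq_mul_inv]
        rw [lintegral_mul_const _ (meas_pairs k (J n) (hB n))]
      rw [h1]
      refine ENNReal.div_le_of_le_mul ?_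
      refine (hpair (J n) (B n) (hB n)).trans (le_of_eq ?_)
      simp only [hD]
      rw [← mul_assoc, ← ENNReal.ofReal_mul (by have := hω n; positivity)]
      congr 2
      simp only [hc]
      have := (hω n).ne'
      field_simp
  have htot : ∫⁻ β, ∑' n, g n β ∂(seg m) ≠ ⊤ := by
    rw [lintegral_tsum fun n => (hgm n).aemeasurable]
    refine ne_top_of_le_ne_top ?_ (ENNReal.tsum_le_tsum hint)
    rw [← ENNReal.ofReal_tsum_of_nonneg (fun n => by have := hω n; positivity) (hsum.mul_left C₀)]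
    exact ENNReal.ofReal_ne_top
  have hae := ae_lt_top (Measurable.tsum hgm) htot
  filter_upwards [hae] with β hβ
  refine ⟨(∑' n, g n β).toReal, ENNReal.toReal_nonneg, fun n => ?_⟩
  by_cases h0 : volume (B n) = 0
  · rw [pairs_zero k (J n) h0 β]
    exact bot_le
  · have hD0 : D n ≠ 0 := by
      simp only [hD]
      refine mul_ne_zero ?_ (pow_ne_zero _ h0)
      rw [Ne, ENNReal.ofReal_eq_zero, not_le]
      exact hcpos n
    have h1 : g n β ≤ ∑' n, g n β := ENNReal.le_tsum n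
    have h2 : pairs k (J n) (B n) β ≤ (∑' n, g n β) * D n := by
      have h3 : pairs k (J n) (B n) β = g n β * D n := by
        simp only [hg]
        rw [ENNReal.div_mul_cancel hD0 (hDtop n)]
      rw [h3]
      gcongr
    refine h2.trans (le_of_eq ?_)
    have h4 : (∑' n, g n β) = ENNReal.ofReal (∑' n, g n β).toReal := (ENNReal.ofReal_toReal hβ.ne).symm
    rw [h4]
    simp only [hD]
    rw [← mul_assoc, ← ENNReal.ofReal_mul ENNReal.toReal_nonneg]
    rw [ENNReal.toReal_ofReal ENNReal.toReal_nonneg]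
    congr 2
    simp only [hc]
    ring

open Pool.Agent.K7.H36.AF (Idx summable_idx) in
theorem ple (hA : StPae) (hM : StMeas) (hS : StSplit) : StPle := by
  intro k t m δ η hk hm hδ hη a
  obtain ⟨-, -, hLm, hEm, hDm, -, -, -⟩ := hM
  obtain ⟨-, -, -, -, hLb, hEL, hDb⟩ := hS
  have hLfin : ∀ (b : Fin t → ℕ) (l : ℕ), volume (Lv k a b l) ≠ ⊤ := fun b l =>
    ne_top_of_le_ne_top ENNReal.ofReal_ne_top (hLb k t a b l)
  have hEfin : ∀ (b : Fin t → ℕ) (l : ℕ), volume (Ex k a b η l) ≠ ⊤ := fun b l =>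
    ne_top_of_le_ne_top (hLfin b l) (measure_mono (hEL k t a b η l hη))
  have hDfin : ∀ (b : Fin t → ℕ) (l : ℕ), volume (Df k a b η l) ≠ ⊤ := fun b l =>
    ne_top_of_le_ne_top ENNReal.ofReal_ne_top (hDb k t a b η l hη)
  have h1 := hA k m hk hm (Idx t) (fun p => p.1.2.1) (fun p => Lv k a p.1.1 p.1.2.2)
    (fun p => ((3 : ℝ) ^ p.1.2.1 * 2 ^ p.1.2.2) ^ δ) (fun p => hLm k t a p.1.1 p.1.2.2)
    (fun p => hLfin p.1.1 p.1.2.2) (fun p => by positivity) (summable_idx t hδ)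
  have h2 := hA k m hk hm (Idx t) (fun p => p.1.2.1) (fun p => Ex k a p.1.1 η p.1.2.2)
    (fun p => ((3 : ℝ) ^ p.1.2.1 * 2 ^ p.1.2.2) ^ δ) (fun p => hEm k t a p.1.1 η p.1.2.2)
    (fun p => hEfin p.1.1 p.1.2.2) (fun p => by positivity) (summable_idx t hδ)
  have h3 := hA k m hk hm (Idx t) (fun p => p.1.2.1) (fun p => Df k a p.1.1 η p.1.2.2)
    (fun p => ((3 : ℝ) ^ p.1.2.1 * 2 ^ p.1.2.2) ^ δ) (fun p => hDm k t a p.1.1 η p.1.2.2)
    (fun p => hDfin p.1.1 p.1.2.2) (fun p => by positivity) (summable_idx t hδ)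
  filter_upwards [h1, h2, h3] with β hβ1 hβ2 hβ3
  obtain ⟨C1, hC1, h1⟩ := hβ1
  obtain ⟨C2, hC2, h2⟩ := hβ2
  obtain ⟨C3, hC3, h3⟩ := hβ3
  exact ⟨⟨C1, hC1, fun b J l hb => h1 ⟨(b, J, l), hb⟩⟩, ⟨C2, hC2, fun b J l hb => h2 ⟨(b, J, l), hb⟩⟩,
    ⟨C3, hC3, fun b J l hb => h3 ⟨(b, J, l), hb⟩⟩⟩

end Pool.Agent.K7.H12.AG
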